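import Pool.Agent.Helper99.AB.Stmts

set_option autoImplicit false

open Finset
open scoped BigOperators

namespace Pool.Agent.Helper8.AB.T0

open Pool.Agent.Helper99.AB

lemma G_pos (n : ℤ) : 0 < G n := Real.exp_pos _

lemma G_neg (n : ℤ) : G (-n) = G n := by simp [G]

lemma prod6 (g : Fin 6 → ℝ) (hg : ∀ k, 0 ≤ g k) : ∏ k, g k ^ 3 ≤ ∑ k, g k ^ 18 := by
  obtain ⟨i, -, hi⟩ := Finset.exists_max_image (univ : Finset (Fin 6)) g ⟨0, mem_univ _⟩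
  calc ∏ k, g k ^ 3 ≤ ∏ _k : Fin 6, g i ^ 3 :=
        Finset.prod_le_prod (fun k _ => pow_nonneg (hg k) 3)
          (fun k _ => pow_le_pow_left₀ (hg k) (hi k (mem_univ _)) 3)
    _ = g i ^ 18 := by rw [Finset.prod_const, ← pow_mul]; simp
    _ ≤ ∑ k, g k ^ 18 :=
        Finset.single_le_sum (f := fun k => g k ^ 18) (fun k _ => pow_nonneg (hg k) 18) (mem_univ i)

lemma sum2 (C : ℝ)
    (hC : ∀ (u : ℤ) (H : ℕ) (x : ℝ), 3 ≤ x → (∀ n ∈ Ioc u (u + H), |(n : ℝ)| ≤ x) →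
      ∑ n ∈ (Ioc u (u + H)).filter (fun n => n ≠ 0), G n ^ 18 ≤ C * (H + Real.log x))
    (B β : ℕ) (x : ℝ) (hx : 3 ≤ x) (hβ : (β : ℝ) + 2 * B ≤ x) :
    ∑ b ∈ Icc 1 B, G (2 * (b : ℤ) + β) ^ 18 ≤ C * (2 * B + Real.log x) := by
  have h := hC β (2 * B) x hx (by
    intro n hn
    rw [mem_Ioc] at hn
    push_cast at hn
    have h1 : (0 : ℝ) ≤ n := by exact_mod_cast (by omega : (0:ℤ) ≤ n)
    have h2 : (n : ℝ) ≤ β + 2 * B := by exact_mod_cast (by omega : n ≤ (β:ℤ) + 2 * B)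
    rw [abs_of_nonneg h1]; linarith)
  push_cast at h
  refine le_trans ?_ h
  have hinj : Set.InjOn (fun b : ℕ => 2 * (b : ℤ) + β) (Icc 1 B : Finset ℕ) := by
    intro a _ b _ hab
    have hab' : 2 * (a : ℤ) + β = 2 * (b : ℤ) + β := hab
    omega
  rw [← Finset.sum_image (f := fun n : ℤ => G n ^ 18) hinj]
  refine Finset.sum_le_sum_of_subset_of_nonneg ?_ (fun _ _ _ => (pow_pos (G_pos _) _).le)
  intro n hn
  rw [mem_image] at hn
  obtain ⟨b, hb, rfl⟩ := hn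
  rw [mem_Icc] at hb
  rw [mem_filter, mem_Ioc]
  refine ⟨⟨by omega, by omega⟩, by omega⟩

lemma sum1 (C : ℝ)
    (hC : ∀ (u : ℤ) (H : ℕ) (x : ℝ), 3 ≤ x → (∀ n ∈ Ioc u (u + H), |(n : ℝ)| ≤ x) →
      ∑ n ∈ (Ioc u (u + H)).filter (fun n => n ≠ 0), G n ^ 18 ≤ C * (H + Real.log x))
    (B : ℕ) (x : ℝ) (hx : 3 ≤ x) (hβ : (B : ℝ) ≤ x) :
    ∑ b ∈ Icc 1 B, G (b : ℤ) ^ 18 ≤ C * (B + Real.log x) := by
  have h := hC 0 B x hx (by
    intro n hn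
    rw [mem_Ioc] at hn
    have h1 : (0 : ℝ) ≤ n := by exact_mod_cast (by omega : (0:ℤ) ≤ n)
    have h2 : (n : ℝ) ≤ B := by exact_mod_cast (by omega : n ≤ (B:ℤ))
    rw [abs_of_nonneg h1]; linarith)
  refine le_trans ?_ h
  have hinj : Set.InjOn (fun b : ℕ => (b : ℤ)) (Icc 1 B : Finset ℕ) := by
    intro a _ b _ hab
    have hab' : (a : ℤ) = (b : ℤ) := hab
    omega
  rw [← Finset.sum_image (f := fun n : ℤ => G n ^ 18) hinj]
  refine Finset.sum_le_sum_of_subset_of_nonneg ?_ (fun _ _ _ => (pow_pos (G_pos _) _).le)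
  intro n hn
  rw [mem_image] at hn
  obtain ⟨b, hb, rfl⟩ := hn
  rw [mem_Icc] at hb
  rw [mem_filter, mem_Ioc]
  refine ⟨⟨by omega, by omega⟩, by omega⟩

open Classical in
/-- The region of the parameters `(b, h)`. -/
noncomputable def RB (L : ℝ) : Finset (ℕ × ℕ) :=
  ((Icc 1 ⌊L⌋₊) ×ˢ (Icc 1 ⌊L⌋₊)).filter (fun r => (r.1 : ℝ) * r.2 ≤ L)

/-- Sums over the region, `h` fixed first. -/
lemma rsum (L D A : ℝ) (hL : 0 ≤ L) (hD : 0 ≤ D) (hA : 0 ≤ A) (f : ℕ → ℕ → ℝ)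
    (hf0 : ∀ b h, 0 ≤ f b h)
    (hf : ∀ h ∈ Icc 1 ⌊L⌋₊, ∑ b ∈ Icc 1 ⌊L / h⌋₊, f b h ≤ D * (2 * (⌊L / h⌋₊ : ℝ) + A)) :
    ∑ r ∈ RB L, f r.1 r.2 ≤ D * (2 * L * (1 + Real.log ⌊L⌋₊) + L * A) := by
  classical
  have h1 : ∑ r ∈ RB L, f r.1 r.2 ≤ ∑ h ∈ Icc 1 ⌊L⌋₊, ∑ b ∈ Icc 1 ⌊L / h⌋₊, f b h := by
    unfold RB
    rw [Finset.sum_filter, Finset.sum_product_right]
    refine Finset.sum_le_sum (fun h hh => ?_)
    rw [mem_Icc] at hh
    rw [← Finset.sum_filter]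
    refine Finset.sum_le_sum_of_subset_of_nonneg ?_ (fun _ _ _ => hf0 _ _)
    intro b hb
    rw [mem_filter, mem_Icc] at hb
    rw [mem_Icc]
    refine ⟨hb.1.1, ?_⟩
    have hh0 : (0:ℝ) < h := by exact_mod_cast (by omega : 0 < h)
    refine Nat.le_floor ?_
    rw [le_div_iff₀ hh0]
    exact hb.2
  have h2 : ∑ h ∈ Icc 1 ⌊L⌋₊, ∑ b ∈ Icc 1 ⌊L / h⌋₊, f b h ≤
      ∑ h ∈ Icc 1 ⌊L⌋₊, D * (2 * (L * (h : ℝ)⁻¹) + A) := by
    refine Finset.sum_le_sum (fun h hh => (hf h hh).trans ?_)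
    have : (⌊L / h⌋₊ : ℝ) ≤ L * (h : ℝ)⁻¹ := by
      rw [← div_eq_mul_inv]; exact Nat.floor_le (by positivity)
    gcongr
  have h3 : ∑ h ∈ Icc 1 ⌊L⌋₊, D * (2 * (L * (h : ℝ)⁻¹) + A) =
      D * (2 * L * ∑ h ∈ Icc 1 ⌊L⌋₊, (h : ℝ)⁻¹ + (⌊L⌋₊ : ℝ) * A) := by
    rw [← Finset.mul_sum, Finset.sum_add_distrib, ← Finset.mul_sum, ← Finset.mul_sum,
      Finset.sum_const, Nat.card_Icc, Nat.add_sub_cancel, nsmul_eq_mul]
    ring
  have h4 : ∑ h ∈ Icc 1 ⌊L⌋₊, (h : ℝ)⁻¹ ≤ 1 + Real.log ⌊L⌋₊ := by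
    have := harmonic_le_one_add_log ⌊L⌋₊
    rw [harmonic_eq_sum_Icc] at this
    push_cast at this
    exact this
  have h5 : (⌊L⌋₊ : ℝ) ≤ L := Nat.floor_le hL
  have h6 : D * (2 * L * ∑ h ∈ Icc 1 ⌊L⌋₊, (h : ℝ)⁻¹ + (⌊L⌋₊ : ℝ) * A) ≤
      D * (2 * L * (1 + Real.log ⌊L⌋₊) + L * A) := by
    gcongr
  linarith

/-- Sums over the region, `b` fixed first. -/
lemma rsum' (L D A : ℝ) (hL : 0 ≤ L) (hD : 0 ≤ D) (hA : 0 ≤ A) (f : ℕ → ℕ → ℝ)
    (hf0 : ∀ b h, 0 ≤ f b h)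
    (hf : ∀ b ∈ Icc 1 ⌊L⌋₊, ∑ h ∈ Icc 1 ⌊L / b⌋₊, f b h ≤ D * (2 * (⌊L / b⌋₊ : ℝ) + A)) :
    ∑ r ∈ RB L, f r.1 r.2 ≤ D * (2 * L * (1 + Real.log ⌊L⌋₊) + L * A) := by
  classical
  have h := rsum L D A hL hD hA (fun b h => f h b) (fun _ _ => hf0 _ _) hf
  refine le_trans (le_of_eq ?_) h
  refine Finset.sum_bij (fun r _ => (r.2, r.1)) ?_ ?_ ?_ ?_
  · intro r hr
    unfold RB at hr ⊢
    rw [mem_filter, mem_product] at hr ⊢
    exact ⟨⟨hr.1.2, hr.1.1⟩, by rw [mul_comm]; exact hr.2⟩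
  · intro r _ s _ hrs
    simp only [Prod.mk.injEq] at hrs
    exact Prod.ext hrs.2 hrs.1
  · intro r hr
    refine ⟨(r.2, r.1), ?_, rfl⟩
    unfold RB at hr ⊢
    rw [mem_filter, mem_product] at hr ⊢
    exact ⟨⟨hr.1.2, hr.1.1⟩, by rw [mul_comm]; exact hr.2⟩
  · intro r _
    rfl

lemma log_le_sqrt (M : ℝ) (hM : 1 ≤ M) : Real.log M ≤ Real.sqrt M := by
  have h0 : 0 < M := by linarith
  set s := Real.sqrt M with hs
  have hs0 : 0 < s := Real.sqrt_pos.mpr h0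
  set t := Real.sqrt s with ht
  have ht0 : 0 < t := Real.sqrt_pos.mpr hs0
  have h1 : s = t ^ 2 := (Real.sq_sqrt hs0.le).symm
  have h2 : M = s ^ 2 := (Real.sq_sqrt h0.le).symm
  have h3 : Real.log M = 4 * Real.log t := by
    rw [h2, h1, Real.log_pow, Real.log_pow]; push_cast; ring
  have h4 := Real.log_le_sub_one_of_pos ht0
  rw [h3, h1]
  nlinarith [sq_nonneg (t - 2)]

lemma prodpairs (h : Fin 4 → ℤ) :
    ∏ r ∈ (univ : Finset (Fin 4 × Fin 4)).filter (fun r => r.1 < r.2), G (h r.1 - h r.2) ^ 3 =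
      G (h 0 - h 1) ^ 3 * G (h 0 - h 2) ^ 3 * G (h 0 - h 3) ^ 3 * G (h 1 - h 2) ^ 3 *
        G (h 1 - h 3) ^ 3 * G (h 2 - h 3) ^ 3 := by
  rw [show (univ : Finset (Fin 4 × Fin 4)).filter (fun r => r.1 < r.2) =
    {(0, 1), (0, 2), (0, 3), (1, 2), (1, 3), (2, 3)} from by decide]
  rw [prod_insert (by decide), prod_insert (by decide), prod_insert (by decide),
    prod_insert (by decide), prod_insert (by decide), prod_singleton]
  ring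


open Classical in
/-- The centres `a` for given `(b, h)`. -/
noncomputable def AB0 (M : ℝ) (r : ℕ × ℕ) : Finset ℤ :=
  (Ioc (⌊M⌋₊ : ℤ) (⌊M⌋₊ + (⌊2 * M⌋₊ + 1 : ℕ))).filter (fun x =>
    ∀ i, ∃ p : ℕ, p.Prime ∧ M < p ∧
      (p : ℤ) = x + (![-(r.1 : ℤ), r.1, -((r.1 : ℤ) + r.2), (r.1 : ℤ) + r.2] : Fin 4 → ℤ) i)

lemma fiber (C : ℝ) (X₀ : ℕ)
    (hQ : ∀ (X : ℕ) (u : ℤ) (h : Fin 4 → ℤ) (M : ℝ),
      X₀ ≤ X → (X : ℝ) ≤ M ^ 2 → 0 < M → (∀ i k, i < k → h i ≠ h k) →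
      ∀ S : Finset ℤ, (∀ x ∈ S, u < x ∧ x ≤ u + X ∧ ∀ i, ∃ p : ℕ, p.Prime ∧ M < p ∧ (p : ℤ) = x + h i) →
      (S.card : ℝ) ≤ C * (X / Real.log X ^ 4) *
        ∏ r ∈ (univ : Finset (Fin 4 × Fin 4)).filter (fun r => r.1 < r.2), G (h r.1 - h r.2) ^ 3)
    (hC : 0 < C) (M : ℝ) (hM : 4 ≤ M) (hX : (X₀ : ℝ) ≤ M) (r : ℕ × ℕ) (h1 : 1 ≤ r.1) (h2 : 1 ≤ r.2) :
    ((AB0 M r).card : ℝ) ≤ C * (3 * M / Real.log M ^ 4) *
      (G (2 * (r.1 : ℤ) + (0 : ℕ)) ^ 18 + 2 * G (r.2 : ℤ) ^ 18 + 2 * G (2 * (r.1 : ℤ) + r.2) ^ 18 +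
        G (2 * (r.1 : ℤ) + (2 * r.2 : ℕ)) ^ 18) := by
  classical
  obtain ⟨b, h⟩ := r
  simp only at h1 h2
  have hfl : (⌊2 * M⌋₊ : ℝ) ≤ 2 * M := Nat.floor_le (by linarith)
  have hfl2 : 2 * M < (⌊2 * M⌋₊ : ℝ) + 1 := Nat.lt_floor_add_one _
  have hXX : X₀ ≤ ⌊2 * M⌋₊ + 1 := by
    have : (X₀ : ℝ) < ((⌊2 * M⌋₊ + 1 : ℕ) : ℝ) := by push_cast; linarith
    exact_mod_cast this.le
  have hne : ∀ i k : Fin 4, i < k →
      (![-(b : ℤ), b, -((b : ℤ) + h), (b : ℤ) + h] : Fin 4 → ℤ) i ≠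
      (![-(b : ℤ), b, -((b : ℤ) + h), (b : ℤ) + h] : Fin 4 → ℤ) k := by
    intro i k hik
    fin_cases i <;> fin_cases k <;> simp at hik ⊢ <;> omega
  have hq := hQ (⌊2 * M⌋₊ + 1) ⌊M⌋₊ ![-(b : ℤ), b, -((b : ℤ) + h), (b : ℤ) + h] M hXX
    (by push_cast; nlinarith) (by linarith) hne (AB0 M (b, h)) (by
      intro x hx
      unfold AB0 at hx
      rw [mem_filter, mem_Ioc] at hx
      exact ⟨hx.1.1, hx.1.2, hx.2⟩)
  have hlogM : 0 < Real.log M := Real.log_pos (by linarith)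
  have hlog : Real.log M ≤ Real.log ((⌊2 * M⌋₊ + 1 : ℕ) : ℝ) := by
    apply Real.log_le_log (by linarith); push_cast; linarith
  have hK : C * (((⌊2 * M⌋₊ + 1 : ℕ) : ℝ) / Real.log ((⌊2 * M⌋₊ + 1 : ℕ) : ℝ) ^ 4) ≤
      C * (3 * M / Real.log M ^ 4) := by
    have : ((⌊2 * M⌋₊ + 1 : ℕ) : ℝ) ≤ 3 * M := by push_cast; linarith
    gcongr
  rw [prodpairs] at hq
  have hp := prod6 ![G (2 * (b : ℤ) + (0 : ℕ)), G (h : ℤ), G (h : ℤ), G (2 * (b : ℤ) + h),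
    G (2 * (b : ℤ) + h), G (2 * (b : ℤ) + (2 * h : ℕ))] (by
      intro k; fin_cases k <;> exact (G_pos _).le)
  rw [Fin.prod_univ_six, Fin.sum_univ_six] at hp
  simp only [Matrix.cons_val] at hp hq
  have e1 : G (-(b : ℤ) - b) = G (2 * (b : ℤ) + (0 : ℕ)) := by
    rw [← G_neg]; congr 1; push_cast; ring
  have e2 : G (-(b : ℤ) - -((b : ℤ) + h)) = G (h : ℤ) := by congr 1; ring
  have e3 : G (-(b : ℤ) - ((b : ℤ) + h)) = G (2 * (b : ℤ) + h) := by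
    rw [← G_neg]; congr 1; ring
  have e4 : G ((b : ℤ) - -((b : ℤ) + h)) = G (2 * (b : ℤ) + h) := by congr 1; ring
  have e5 : G ((b : ℤ) - ((b : ℤ) + h)) = G (h : ℤ) := by
    rw [← G_neg]; congr 1; ring
  have e6 : G (-((b : ℤ) + h) - ((b : ℤ) + h)) = G (2 * (b : ℤ) + (2 * h : ℕ)) := by
    rw [← G_neg]; congr 1; push_cast; ring
  rw [e1, e2, e3, e4, e5, e6] at hq
  have hprod : G (2 * (b : ℤ) + (0 : ℕ)) ^ 3 * G (h : ℤ) ^ 3 * G (2 * (b : ℤ) + h) ^ 3 *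
      G (2 * (b : ℤ) + h) ^ 3 * G (h : ℤ) ^ 3 * G (2 * (b : ℤ) + (2 * h : ℕ)) ^ 3 ≤
      G (2 * (b : ℤ) + (0 : ℕ)) ^ 18 + 2 * G (h : ℤ) ^ 18 + 2 * G (2 * (b : ℤ) + h) ^ 18 +
        G (2 * (b : ℤ) + (2 * h : ℕ)) ^ 18 := by
    refine le_trans (le_of_eq ?_) (hp.trans (le_of_eq ?_)) <;> ring
  have hprod0 : 0 ≤ G (2 * (b : ℤ) + (0 : ℕ)) ^ 3 * G (h : ℤ) ^ 3 * G (2 * (b : ℤ) + h) ^ 3 *
      G (2 * (b : ℤ) + h) ^ 3 * G (h : ℤ) ^ 3 * G (2 * (b : ℤ) + (2 * h : ℕ)) ^ 3 := by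
    have := G_pos (2 * (b : ℤ) + (0 : ℕ))
    have := G_pos (h : ℤ)
    have := G_pos (2 * (b : ℤ) + h)
    have := G_pos (2 * (b : ℤ) + (2 * h : ℕ))
    positivity
  refine hq.trans ?_
  refine mul_le_mul hK hprod hprod0 ?_
  positivity

/-- The total over the region. -/
lemma total (C : ℝ) (hC0 : 0 < C)
    (hC : ∀ (u : ℤ) (H : ℕ) (x : ℝ), 3 ≤ x → (∀ n ∈ Ioc u (u + H), |(n : ℝ)| ≤ x) →
      ∑ n ∈ (Ioc u (u + H)).filter (fun n => n ≠ 0), G n ^ 18 ≤ C * (H + Real.log x))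
    (L M : ℝ) (hM : 4 ≤ M) (hL : 0 ≤ L) (hLM : L ≤ M) :
    ∑ r ∈ RB L, (G (2 * (r.1 : ℤ) + (0 : ℕ)) ^ 18 + 2 * G (r.2 : ℤ) ^ 18 +
      2 * G (2 * (r.1 : ℤ) + r.2) ^ 18 + G (2 * (r.1 : ℤ) + (2 * r.2 : ℕ)) ^ 18) ≤
      36 * C * L * Real.log M := by
  have hlog1 : 1 ≤ Real.log M := by
    rw [Real.le_log_iff_exp_le (by linarith)]
    have := Real.exp_one_lt_d9
    linarith
  have hx : (3:ℝ) ≤ 4 * M := by linarith
  have hA : Real.log (4 * M) ≤ 2 * Real.log M := by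
    rw [Real.log_mul (by norm_num) (by linarith)]
    have : Real.log 4 ≤ Real.log M := Real.log_le_log (by norm_num) hM
    linarith
  have hA0 : 0 ≤ Real.log (4 * M) := Real.log_nonneg (by linarith)
  have hNf : (⌊L⌋₊ : ℝ) ≤ L := Nat.floor_le hL
  have hlogN : Real.log ⌊L⌋₊ ≤ Real.log M := by
    rcases Nat.eq_zero_or_pos ⌊L⌋₊ with h | h
    · rw [h]; simp; linarith
    · apply Real.log_le_log (by exact_mod_cast h); linarith
  have hdiv : ∀ h : ℕ, h ∈ Icc 1 ⌊L⌋₊ → (⌊L / h⌋₊ : ℝ) ≤ L := by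
    intro h hh
    rw [mem_Icc] at hh
    have h1 : (1:ℝ) ≤ h := by exact_mod_cast hh.1
    exact (Nat.floor_le (by positivity)).trans (div_le_self hL h1)
  have hhL : ∀ h : ℕ, h ∈ Icc 1 ⌊L⌋₊ → (h : ℝ) ≤ L := by
    intro h hh
    rw [mem_Icc] at hh
    have : (h : ℝ) ≤ ⌊L⌋₊ := by exact_mod_cast hh.2
    linarith
  have hfin : C * (2 * L * (1 + Real.log ⌊L⌋₊) + L * Real.log (4 * M)) ≤ 6 * C * L * Real.log M := by
    have h1 : 2 * L * (1 + Real.log ⌊L⌋₊) + L * Real.log (4 * M) ≤ 6 * L * Real.log M := by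
      have : 1 + Real.log ⌊L⌋₊ ≤ 2 * Real.log M := by linarith
      nlinarith
    nlinarith
  have s1 := rsum L C (Real.log (4 * M)) hL hC0.le hA0 (fun b _ => G (2 * (b : ℤ) + (0 : ℕ)) ^ 18)
    (fun _ _ => (pow_pos (G_pos _) _).le) (fun h hh => by
      refine sum2 C hC ⌊L / h⌋₊ 0 (4 * M) hx ?_
      have := hdiv h hh
      push_cast; linarith)
  have s2 := rsum' L C (Real.log (4 * M)) hL hC0.le hA0 (fun _ h => G (h : ℤ) ^ 18)
    (fun _ _ => (pow_pos (G_pos _) _).le) (fun b hb => by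
      have h0 := sum1 C hC ⌊L / b⌋₊ (4 * M) hx (by have := hdiv b hb; linarith)
      refine h0.trans ?_
      have : (0:ℝ) ≤ (⌊L / b⌋₊ : ℝ) := Nat.cast_nonneg _
      nlinarith)
  have s3 := rsum L C (Real.log (4 * M)) hL hC0.le hA0 (fun b h => G (2 * (b : ℤ) + h) ^ 18)
    (fun _ _ => (pow_pos (G_pos _) _).le) (fun h hh => by
      refine sum2 C hC ⌊L / h⌋₊ h (4 * M) hx ?_
      have := hdiv h hh
      have := hhL h hh
      linarith)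
  have s4 := rsum L C (Real.log (4 * M)) hL hC0.le hA0
    (fun b h => G (2 * (b : ℤ) + (2 * h : ℕ)) ^ 18)
    (fun _ _ => (pow_pos (G_pos _) _).le) (fun h hh => by
      refine sum2 C hC ⌊L / h⌋₊ (2 * h) (4 * M) hx ?_
      have := hdiv h hh
      have := hhL h hh
      push_cast; linarith)
  have hsplit : ∑ r ∈ RB L, (G (2 * (r.1 : ℤ) + (0 : ℕ)) ^ 18 + 2 * G (r.2 : ℤ) ^ 18 +
      2 * G (2 * (r.1 : ℤ) + r.2) ^ 18 + G (2 * (r.1 : ℤ) + (2 * r.2 : ℕ)) ^ 18) =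
      ∑ r ∈ RB L, G (2 * (r.1 : ℤ) + (0 : ℕ)) ^ 18 + 2 * ∑ r ∈ RB L, G (r.2 : ℤ) ^ 18 +
      2 * ∑ r ∈ RB L, G (2 * (r.1 : ℤ) + r.2) ^ 18 +
      ∑ r ∈ RB L, G (2 * (r.1 : ℤ) + (2 * r.2 : ℕ)) ^ 18 := by
    rw [Finset.sum_add_distrib, Finset.sum_add_distrib, Finset.sum_add_distrib,
      ← Finset.mul_sum, ← Finset.mul_sum]
  rw [hsplit]
  linarith

/-- The injection into the parameters. -/
lemma inj (κ M : ℝ) (hM : 4 ≤ M) :
    (((TP κ M).filter (fun s => s.1.1 + s.1.2 = s.2.1 + s.2.2)).card : ℝ) ≤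
      ∑ r ∈ RB (Le κ M), ((AB0 M r).card : ℝ) := by
  classical
  have hM0 : 0 ≤ M := by linarith
  have hpr : ∀ p ∈ PM M, p.Prime ∧ M < p ∧ (p : ℝ) ≤ 3 * M ∧ p % 2 = 1 := by
    intro p hp
    unfold PM at hp
    rw [mem_filter, mem_Ioc] at hp
    have h1 : M < p := (Nat.floor_lt hM0).mp hp.1.1
    have h2 : (p : ℝ) ≤ 3 * M := (Nat.le_floor_iff (by linarith)).mp hp.1.2
    refine ⟨hp.2, h1, h2, ?_⟩
    rcases hp.2.eq_two_or_odd with h | h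
    · exfalso; rw [h] at h1; push_cast at h1; linarith
    · exact h
  have hinj : ((TP κ M).filter (fun s => s.1.1 + s.1.2 = s.2.1 + s.2.2)).card ≤
      ((RB (Le κ M)).sigma (AB0 M)).card := by
    refine Finset.card_le_card_of_injOn
      (fun s => ⟨((s.1.2 - s.1.1) / 2, (s.2.2 - s.2.1) / 2 - (s.1.2 - s.1.1) / 2),
        ((s.1.1 : ℤ) + s.1.2) / 2⟩) ?_ ?_
    · intro s hs
      obtain ⟨⟨p, q⟩, ⟨p', q'⟩⟩ := s
      rw [mem_coe, mem_filter] at hs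
      obtain ⟨hs, hsum⟩ := hs
      unfold TP at hs
      rw [mem_filter, mem_product] at hs
      obtain ⟨⟨hs1, hs2⟩, hlt, hclose⟩ := hs
      unfold CP at hs1 hs2
      rw [mem_filter, mem_product] at hs1 hs2
      simp only at hs1 hs2 hlt hclose hsum
      obtain ⟨⟨hp, hq⟩, hpq, -⟩ := hs1
      obtain ⟨⟨hp', hq'⟩, hpq', -⟩ := hs2
      obtain ⟨pp, pM, p3, po⟩ := hpr p hp
      obtain ⟨qp, qM, q3, qo⟩ := hpr q hq
      obtain ⟨pp', pM', p3', po'⟩ := hpr p' hp'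
      obtain ⟨qp', qM', q3', qo'⟩ := hpr q' hq'
      obtain ⟨b, hb⟩ : ∃ b, q = p + 2 * b := ⟨(q - p) / 2, by omega⟩
      obtain ⟨b', hb'⟩ : ∃ b', q' = p' + 2 * b' := ⟨(q' - p') / 2, by omega⟩
      subst hb hb'
      have hpp : p + b = p' + b' := by omega
      have hbb : b < b' := by
        by_contra hcon
        push Not at hcon
        obtain ⟨k, rfl⟩ := Nat.exists_eq_add_of_le hcon
        have : p' = p + k := by omega
        subst this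
        nlinarith
      obtain ⟨h, rfl⟩ := Nat.exists_eq_add_of_lt hbb
      have hp1 : p = p' + h + 1 := by omega
      subst hp1
      rw [mem_coe, mem_sigma]
      have hA : (p' + h + 1 + 2 * b - (p' + h + 1)) / 2 = b := by omega
      have hB : (p' + 2 * (b + h + 1) - p') / 2 - b = h + 1 := by omega
      simp only [hA, hB]
      have hcl : (b : ℝ) * ((h + 1 : ℕ) : ℝ) ≤ Le κ M := by
        push_cast at hclose ⊢
        nlinarith [Nat.cast_nonneg (α := ℝ) b, Nat.cast_nonneg (α := ℝ) h,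
          mul_nonneg (Nat.cast_nonneg (α := ℝ) b) (Nat.cast_nonneg (α := ℝ) h),
          sq_nonneg ((h : ℝ) + 1)]
      have hb1 : 1 ≤ b := by omega
      constructor
      · unfold RB
        rw [mem_filter, mem_product, mem_Icc, mem_Icc]
        refine ⟨⟨⟨hb1, ?_⟩, ⟨by omega, ?_⟩⟩, hcl⟩
        · refine Nat.le_floor (le_trans ?_ hcl)
          push_cast
          nlinarith [Nat.cast_nonneg (α := ℝ) b, mul_nonneg (Nat.cast_nonneg (α := ℝ) b) (Nat.cast_nonneg (α := ℝ) h)]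
        · refine Nat.le_floor (le_trans ?_ hcl)
          have : (1:ℝ) ≤ b := by exact_mod_cast hb1
          have h0 : (0:ℝ) ≤ ((h + 1 : ℕ) : ℝ) := Nat.cast_nonneg _
          nlinarith
      · unfold AB0
        have hcen : ((((p' + h + 1 : ℕ) : ℤ)) + ((p' + h + 1 + 2 * b : ℕ) : ℤ)) / 2 = p' + h + 1 + b := by
          push_cast; omega
        rw [hcen, mem_filter, mem_Ioc]
        have hfM : (⌊M⌋₊ : ℝ) ≤ M := Nat.floor_le hM0
        have hfM2 : M < (⌊M⌋₊ : ℝ) + 1 := Nat.lt_floor_add_one _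
        have hfM3 : 2 * M < (⌊2 * M⌋₊ : ℝ) + 1 := Nat.lt_floor_add_one _
        refine ⟨⟨?_, ?_⟩, ?_⟩
        · have : ((⌊M⌋₊ : ℤ) : ℝ) < ((p' + h + 1 + b : ℤ) : ℝ) := by
            push_cast at pM ⊢
            have := Nat.cast_nonneg (α := ℝ) b
            linarith
          exact_mod_cast this
        · have : ((p' + h + 1 + b : ℤ) : ℝ) < (((⌊M⌋₊ : ℤ) + (⌊2 * M⌋₊ + 1 : ℕ) + 1 : ℤ) : ℝ) := by
            push_cast at q3 ⊢
            have := Nat.cast_nonneg (α := ℝ) b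
            linarith
          have h2 : ((p' + h + 1 + b : ℤ)) < ((⌊M⌋₊ : ℤ) + (⌊2 * M⌋₊ + 1 : ℕ) + 1 : ℤ) := by
            exact_mod_cast this
          omega
        · intro i
          fin_cases i
          · exact ⟨p' + h + 1, pp, pM, by simp only []; push_cast; ring⟩
          · exact ⟨p' + h + 1 + 2 * b, qp, qM, by simp only []; push_cast; ring⟩
          · exact ⟨p', pp', pM', by simp only []; push_cast; ring⟩
          · exact ⟨p' + 2 * (b + h + 1), qp', qM', by simp only []; push_cast; ring⟩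
    · intro s hs t ht hst
      obtain ⟨⟨p, q⟩, ⟨p', q'⟩⟩ := s
      obtain ⟨⟨r, w⟩, ⟨r', w'⟩⟩ := t
      rw [mem_coe, mem_filter] at hs ht
      obtain ⟨hs, hsum⟩ := hs
      obtain ⟨ht, tsum⟩ := ht
      unfold TP at hs ht
      rw [mem_filter, mem_product] at hs ht
      obtain ⟨⟨hs1, hs2⟩, hlt, -⟩ := hs
      obtain ⟨⟨ht1, ht2⟩, tlt, -⟩ := ht
      unfold CP at hs1 hs2 ht1 ht2
      rw [mem_filter, mem_product] at hs1 hs2 ht1 ht2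
      simp only at hs1 hs2 ht1 ht2 hlt tlt hsum tsum
      obtain ⟨⟨hp, hq⟩, hpq, -⟩ := hs1
      obtain ⟨⟨hp', hq'⟩, hpq', -⟩ := hs2
      obtain ⟨⟨hr, hw⟩, hrw, -⟩ := ht1
      obtain ⟨⟨hr', hw'⟩, hrw', -⟩ := ht2
      have o1 := (hpr p hp).2.2.2
      have o2 := (hpr q hq).2.2.2
      have o3 := (hpr p' hp').2.2.2
      have o4 := (hpr q' hq').2.2.2
      have o5 := (hpr r hr).2.2.2
      have o6 := (hpr w hw).2.2.2
      have o7 := (hpr r' hr').2.2.2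
      have o8 := (hpr w' hw').2.2.2
      have hb1 : (q - p) / 2 < (q' - p') / 2 := by
        by_contra hcon
        push Not at hcon
        obtain ⟨b, hb⟩ : ∃ b, q = p + 2 * b := ⟨(q - p) / 2, by omega⟩
        obtain ⟨b', hb'⟩ : ∃ b', q' = p' + 2 * b' := ⟨(q' - p') / 2, by omega⟩
        subst hb hb'
        have hcon' : b' ≤ b := by omega
        obtain ⟨k, rfl⟩ := Nat.exists_eq_add_of_le hcon'
        have : p' = p + k := by omega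
        subst this
        nlinarith
      have hb2 : (w - r) / 2 < (w' - r') / 2 := by
        by_contra hcon
        push Not at hcon
        obtain ⟨b, hb⟩ : ∃ b, w = r + 2 * b := ⟨(w - r) / 2, by omega⟩
        obtain ⟨b', hb'⟩ : ∃ b', w' = r' + 2 * b' := ⟨(w' - r') / 2, by omega⟩
        subst hb hb'
        have hcon' : b' ≤ b := by omega
        obtain ⟨k, rfl⟩ := Nat.exists_eq_add_of_le hcon'
        have : r' = r + k := by omega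
        subst this
        nlinarith
      simp only [Sigma.mk.injEq, Prod.mk.injEq, heq_eq_eq] at hst
      obtain ⟨⟨h1, h2⟩, h3⟩ := hst
      have e1 : p = r := by omega
      have e2 : q = w := by omega
      have e3 : p' = r' := by omega
      have e4 : q' = w' := by omega
      rw [e1, e2, e3, e4]
  rw [Finset.card_sigma] at hinj
  exact_mod_cast hinj

theorem st_T0 (hQF : ST_QF) (hGA : ST_GA) : ST_T0 := by
  classical
  obtain ⟨C1, hC1, X₀, hQ⟩ := hQF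
  obtain ⟨C2, hC2, hG⟩ := hGA 18
  intro κ hκ hκ1
  refine ⟨max (max 4 X₀) (Real.exp (108 * C1 * C2 / κ ^ 2)), fun M hM => ?_⟩
  have hM4 : 4 ≤ M := le_trans (le_trans (le_max_left _ _) (le_max_left _ _)) hM
  have hMX : (X₀ : ℝ) ≤ M := le_trans (le_trans (le_max_right _ _) (le_max_left _ _)) hM
  have hME : Real.exp (108 * C1 * C2 / κ ^ 2) ≤ M := le_trans (le_max_right _ _) hM
  have hlogE : 108 * C1 * C2 / κ ^ 2 ≤ Real.log M := by
    rw [Real.le_log_iff_exp_le (by linarith)]; exact hME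
  have hlog0 : 0 < Real.log M := Real.log_pos (by linarith)
  have hs0 : 0 < Real.sqrt M := Real.sqrt_pos.mpr (by linarith)
  have hL0 : 0 ≤ Le κ M := by unfold Le; positivity
  have hLM : Le κ M ≤ M := by
    unfold Le
    have h1 := log_le_sqrt M (by linarith)
    have h2 : Real.sqrt M * Real.sqrt M = M := Real.mul_self_sqrt (by linarith)
    calc κ * Real.sqrt M * Real.log M ≤ 1 * Real.sqrt M * Real.sqrt M := by gcongr
      _ = M := by rw [one_mul, h2]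
  have h1 := inj κ M hM4
  have h2 : ∑ r ∈ RB (Le κ M), ((AB0 M r).card : ℝ) ≤ ∑ r ∈ RB (Le κ M),
      C1 * (3 * M / Real.log M ^ 4) * (G (2 * (r.1 : ℤ) + (0 : ℕ)) ^ 18 + 2 * G (r.2 : ℤ) ^ 18 +
        2 * G (2 * (r.1 : ℤ) + r.2) ^ 18 + G (2 * (r.1 : ℤ) + (2 * r.2 : ℕ)) ^ 18) := by
    refine Finset.sum_le_sum (fun r hr => ?_)
    unfold RB at hr
    rw [mem_filter, mem_product, mem_Icc, mem_Icc] at hr
    exact fiber C1 X₀ hQ hC1 M hM4 hMX r hr.1.1.1 hr.1.2.1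
  rw [← Finset.mul_sum] at h2
  have h3 := total C2 hC2 hG (Le κ M) M hM4 hL0 hLM
  have h4 : C1 * (3 * M / Real.log M ^ 4) * (36 * C2 * Le κ M * Real.log M) ≤ κ ^ 2 * Qm κ M := by
    unfold Le Qm
    have hk2 : 108 * C1 * C2 ≤ κ ^ 2 * Real.log M := by
      rw [div_le_iff₀ (by positivity)] at hlogE
      linarith
    have e1 : C1 * (3 * M / Real.log M ^ 4) * (36 * C2 * (κ * Real.sqrt M * Real.log M) * Real.log M) =
        (108 * C1 * C2) * (κ * M * Real.sqrt M / Real.log M ^ 2) := by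
      field_simp
      ring
    have e2 : κ ^ 2 * (κ * M * Real.sqrt M / Real.log M) =
        (κ ^ 2 * Real.log M) * (κ * M * Real.sqrt M / Real.log M ^ 2) := by
      field_simp
    rw [e1, e2]
    have : 0 ≤ κ * M * Real.sqrt M / Real.log M ^ 2 := by positivity
    gcongr
  have h5 : C1 * (3 * M / Real.log M ^ 4) * ∑ r ∈ RB (Le κ M), (G (2 * (r.1 : ℤ) + (0 : ℕ)) ^ 18 +
      2 * G (r.2 : ℤ) ^ 18 + 2 * G (2 * (r.1 : ℤ) + r.2) ^ 18 +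
        G (2 * (r.1 : ℤ) + (2 * r.2 : ℕ)) ^ 18) ≤
      C1 * (3 * M / Real.log M ^ 4) * (36 * C2 * Le κ M * Real.log M) := by
    have : 0 ≤ C1 * (3 * M / Real.log M ^ 4) := by positivity
    gcongr
  linarith

end Pool.Agent.Helper8.AB.T0
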