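import Pool.Agent.Helper99.AB.Stmts

set_option autoImplicit false

open Finset
open scoped BigOperators

namespace Pool.Agent.Helper8.AB.UN

open Pool.Agent.Helper99.AB

lemma uniq {p q p' q' : ℕ} (hp : p.Prime) (hp' : p'.Prime) (hq' : q'.Prime)
    (h : p < q) (h' : p' < q') (he : p * q = p' * q') : p = p' ∧ q = q' := by
  have hd : p ∣ p' * q' := ⟨q, he.symm⟩
  rcases (Nat.Prime.dvd_mul hp).mp hd with h1 | h1
  · have e := (Nat.prime_dvd_prime_iff_eq hp hp').mp h1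
    subst e
    exact ⟨rfl, Nat.eq_of_mul_eq_mul_left hp.pos he⟩
  · have e := (Nat.prime_dvd_prime_iff_eq hp hq').mp h1
    subst e
    exfalso
    have : q = p' := by
      apply Nat.eq_of_mul_eq_mul_left hp.pos
      rw [he, mul_comm]
    omega

open Classical in
/-- The covered integers. -/
noncomputable def SS (κ M : ℝ) : Finset ℕ := (Icc 1 ⌊16 * M ^ 2⌋₊).filter (fun n : ℕ => ∃ r ∈ CP κ M,
    r.1 * r.2 < n ∧ (n : ℝ) ≤ ((r.1 * r.2 : ℕ) : ℝ) + Le κ M)

open Classical in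
lemma second (κ M : ℝ) (hM : 1 ≤ M) (hL0 : 0 ≤ Le κ M) (hLM : Le κ M ≤ M ^ 2) :
    ((⌊Le κ M⌋₊ * (CP κ M).card : ℕ) : ℝ) ^ 2 ≤
      ((SS κ M).card : ℝ) * ((⌊Le κ M⌋₊ : ℝ) * ((CP κ M).card + 2 * (TP κ M).card)) := by
  set l := ⌊Le κ M⌋₊ with hl
  have hlL : (l : ℝ) ≤ Le κ M := Nat.floor_le hL0
  set K := CP κ M with hK
  have hmem : ∀ r ∈ K, r.1.Prime ∧ r.2.Prime ∧ r.1 < r.2 ∧ (r.1 : ℝ) ≤ 3 * M ∧ (r.2 : ℝ) ≤ 3 * M := by
    intro r hr
    rw [hK] at hr
    unfold CP PM at hr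
    rw [mem_filter, mem_product, mem_filter, mem_filter, mem_Ioc, mem_Ioc] at hr
    obtain ⟨⟨⟨⟨-, h1⟩, h2⟩, ⟨⟨-, h3⟩, h4⟩⟩, h5, -⟩ := hr
    exact ⟨h2, h4, h5, (Nat.le_floor_iff (by linarith)).mp h1, (Nat.le_floor_iff (by linarith)).mp h3⟩
  have hI : ∀ r ∈ K, (SS κ M).filter (fun n => r.1 * r.2 < n ∧ n ≤ r.1 * r.2 + l) =
      Ioc (r.1 * r.2) (r.1 * r.2 + l) := by
    intro r hr
    obtain ⟨hp, hq, hpq, h1, h2⟩ := hmem r hr
    ext n
    rw [mem_filter, mem_Ioc]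
    refine ⟨fun h => h.2, fun h => ⟨?_, h⟩⟩
    unfold SS
    have hn : (n : ℝ) ≤ ((r.1 * r.2 : ℕ) : ℝ) + l := by exact_mod_cast h.2
    rw [mem_filter, mem_Icc]
    refine ⟨⟨by omega, ?_⟩, r, hr, h.1, by linarith⟩
    refine Nat.le_floor (hn.trans ?_)
    push_cast
    have h10 : (0:ℝ) ≤ r.1 := Nat.cast_nonneg _
    have h20 : (0:ℝ) ≤ r.2 := Nat.cast_nonneg _
    have : (r.1 : ℝ) * r.2 ≤ (3 * M) * (3 * M) := by gcongr
    nlinarith
  have hsum1 : ∑ n ∈ SS κ M, (K.filter (fun r => r.1 * r.2 < n ∧ n ≤ r.1 * r.2 + l)).card = l * K.card := by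
    have : ∑ n ∈ SS κ M, (K.filter (fun r => r.1 * r.2 < n ∧ n ≤ r.1 * r.2 + l)).card =
        ∑ r ∈ K, ((SS κ M).filter (fun n => r.1 * r.2 < n ∧ n ≤ r.1 * r.2 + l)).card := by
      simp_rw [Finset.card_filter]
      rw [Finset.sum_comm]
    rw [this, Finset.sum_congr rfl (fun r hr => by rw [hI r hr])]
    simp [mul_comm]
  have hsum2 : ∑ n ∈ SS κ M, (K.filter (fun r => r.1 * r.2 < n ∧ n ≤ r.1 * r.2 + l)).card ^ 2 ≤
      l * (K.card + 2 * (TP κ M).card) := by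
    have e1 : ∑ n ∈ SS κ M, (K.filter (fun r => r.1 * r.2 < n ∧ n ≤ r.1 * r.2 + l)).card ^ 2 =
        ∑ s ∈ K ×ˢ K, ((SS κ M).filter (fun n => (s.1.1 * s.1.2 < n ∧ n ≤ s.1.1 * s.1.2 + l) ∧
          (s.2.1 * s.2.2 < n ∧ n ≤ s.2.1 * s.2.2 + l))).card := by
      have : ∀ n, (K.filter (fun r => r.1 * r.2 < n ∧ n ≤ r.1 * r.2 + l)).card ^ 2 =
          ((K ×ˢ K).filter (fun s => (s.1.1 * s.1.2 < n ∧ n ≤ s.1.1 * s.1.2 + l) ∧
          (s.2.1 * s.2.2 < n ∧ n ≤ s.2.1 * s.2.2 + l))).card := by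
        intro n
        rw [sq, ← Finset.card_product]
        congr 1
        ext s
        simp only [mem_product, mem_filter]
        tauto
      simp_rw [this, Finset.card_filter]
      rw [Finset.sum_comm]
    rw [e1]
    set B := (K ×ˢ K).filter (fun s => s.1 = s.2 ∨ s ∈ TP κ M ∨ (s.2, s.1) ∈ TP κ M) with hB
    have hBc : B.card ≤ K.card + 2 * (TP κ M).card := by
      have hsub : B ⊆ K.image (fun r => (r, r)) ∪ (TP κ M ∪ (TP κ M).image (fun s => (s.2, s.1))) := by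
        intro s hs
        rw [hB, mem_filter, mem_product] at hs
        rw [mem_union, mem_union, mem_image, mem_image]
        rcases hs.2 with h | h | h
        · left; exact ⟨s.1, hs.1.1, Prod.ext rfl h⟩
        · right; left; exact h
        · right; right; exact ⟨_, h, rfl⟩
      calc B.card ≤ _ := Finset.card_le_card hsub
        _ ≤ (K.image (fun r => (r, r))).card +
            (TP κ M ∪ (TP κ M).image (fun s => (s.2, s.1))).card := Finset.card_union_le _ _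
        _ ≤ K.card + ((TP κ M).card + ((TP κ M).image (fun s => (s.2, s.1))).card) := by
            gcongr
            · exact Finset.card_image_le
            · exact Finset.card_union_le _ _
        _ ≤ K.card + ((TP κ M).card + (TP κ M).card) := by
            have := Finset.card_image_le (s := TP κ M)
              (f := fun s : (ℕ × ℕ) × (ℕ × ℕ) => (s.2, s.1))
            omega
        _ = _ := by ring
    have hz : ∀ s ∈ K ×ˢ K, s ∉ B → ((SS κ M).filter (fun n => (s.1.1 * s.1.2 < n ∧ n ≤ s.1.1 * s.1.2 + l) ∧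
          (s.2.1 * s.2.2 < n ∧ n ≤ s.2.1 * s.2.2 + l))).card = 0 := by
      intro s hs hsB
      rw [Finset.card_eq_zero, Finset.filter_eq_empty_iff]
      intro n _ hn
      apply hsB
      rw [hB, mem_filter]
      refine ⟨hs, ?_⟩
      rw [mem_product] at hs
      obtain ⟨hp, hq, hpq, -, -⟩ := hmem s.1 hs.1
      obtain ⟨hp', hq', hpq', -, -⟩ := hmem s.2 hs.2
      rcases lt_trichotomy (s.1.1 * s.1.2) (s.2.1 * s.2.2) with h | h | h
      · right; right
        unfold TP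
        rw [mem_filter, mem_product]
        refine ⟨⟨hs.2, hs.1⟩, h, ?_⟩
        have : s.2.1 * s.2.2 < s.1.1 * s.1.2 + l := by omega
        have h2 : ((s.2.1 * s.2.2 : ℕ) : ℝ) < ((s.1.1 * s.1.2 : ℕ) : ℝ) + l := by exact_mod_cast this
        simp only
        linarith
      · left
        obtain ⟨e1, e2⟩ := uniq hp hp' hq' hpq hpq' h
        exact Prod.ext e1 e2
      · right; left
        unfold TP
        rw [mem_filter, mem_product]
        refine ⟨⟨hs.1, hs.2⟩, h, ?_⟩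
        have : s.1.1 * s.1.2 < s.2.1 * s.2.2 + l := by omega
        have h2 : ((s.1.1 * s.1.2 : ℕ) : ℝ) < ((s.2.1 * s.2.2 : ℕ) : ℝ) + l := by exact_mod_cast this
        linarith
    have hle : ∀ s ∈ K ×ˢ K, ((SS κ M).filter (fun n => (s.1.1 * s.1.2 < n ∧ n ≤ s.1.1 * s.1.2 + l) ∧
          (s.2.1 * s.2.2 < n ∧ n ≤ s.2.1 * s.2.2 + l))).card ≤ l := by
      intro s hs
      rw [mem_product] at hs
      have : ((SS κ M).filter (fun n => (s.1.1 * s.1.2 < n ∧ n ≤ s.1.1 * s.1.2 + l) ∧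
          (s.2.1 * s.2.2 < n ∧ n ≤ s.2.1 * s.2.2 + l))) ⊆ Ioc (s.1.1 * s.1.2) (s.1.1 * s.1.2 + l) := by
        intro n hn
        rw [mem_filter] at hn
        rw [mem_Ioc]
        exact hn.2.1
      refine (Finset.card_le_card this).trans ?_
      simp
    calc _ ≤ ∑ s ∈ K ×ˢ K, if s ∈ B then l else 0 := by
          refine Finset.sum_le_sum (fun s hs => ?_)
          split_ifs with h
          · exact hle s hs
          · exact (hz s hs h).le
      _ = l * B.card := by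
          rw [← Finset.sum_filter, Finset.sum_const, smul_eq_mul, mul_comm]
          congr 2
          ext s
          rw [mem_filter, hB, mem_filter]
          tauto
      _ ≤ _ := by gcongr
  have hcs := sq_sum_le_card_mul_sum_sq (s := SS κ M)
    (f := fun n => ((K.filter (fun r => r.1 * r.2 < n ∧ n ≤ r.1 * r.2 + l)).card : ℝ))
  have h1 : ∑ n ∈ SS κ M, ((K.filter (fun r => r.1 * r.2 < n ∧ n ≤ r.1 * r.2 + l)).card : ℝ) =
      ((l * K.card : ℕ) : ℝ) := by
    rw [← hsum1]; push_cast; rfl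
  have h2 : ∑ n ∈ SS κ M, ((K.filter (fun r => r.1 * r.2 < n ∧ n ≤ r.1 * r.2 + l)).card : ℝ) ^ 2 ≤
      (l : ℝ) * (K.card + 2 * (TP κ M).card) := by
    exact_mod_cast hsum2
  rw [h1] at hcs
  refine hcs.trans ?_
  gcongr

theorem st_UN (hT1 : ST_T1) (hT0 : ST_T0) (hCH : ST_CH) : ST_UN := by
  classical
  obtain ⟨C, hC, hT1⟩ := hT1
  obtain ⟨c, hc, hCH⟩ := hCH
  refine ⟨c ^ 2 / (2 * (c + 2 * (C + 1))), by positivity, fun κ hκ hκ1 => ?_⟩
  obtain ⟨M1, hM1⟩ := hT1 κ hκ hκ1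
  obtain ⟨M2, hM2⟩ := hT0 κ hκ hκ1
  obtain ⟨M3, hM3⟩ := hCH κ hκ hκ1
  refine ⟨max (max (max 3 (1 / κ ^ 2)) M1) (max M2 M3), fun M hM => ?_⟩
  have hM3' : 3 ≤ M := le_trans (le_trans (le_max_left _ _) (le_trans (le_max_left _ _) (le_max_left _ _))) hM
  have hMκ : 1 / κ ^ 2 ≤ M := le_trans (le_trans (le_max_right _ _) (le_trans (le_max_left _ _) (le_max_left _ _))) hM
  have a1 := hM1 M (le_trans (le_trans (le_max_right _ _) (le_max_left _ _)) hM)
  have a2 := hM2 M (le_trans (le_trans (le_max_left _ _) (le_max_right _ _)) hM)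
  have a3 := hM3 M (le_trans (le_trans (le_max_right _ _) (le_max_right _ _)) hM)
  have hlog1 : 1 ≤ Real.log M := by
    rw [Real.le_log_iff_exp_le (by linarith)]
    have := Real.exp_one_lt_d9
    linarith
  have hM0 : 0 < M := by linarith
  have hs0 : 0 < Real.sqrt M := Real.sqrt_pos.mpr hM0
  have hss : Real.sqrt M * Real.sqrt M = M := Real.mul_self_sqrt hM0.le
  have hL1 : 1 ≤ Le κ M := by
    unfold Le
    have h1 : 1 / κ ≤ Real.sqrt M := by
      apply Real.le_sqrt_of_sq_le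
      rw [div_pow, one_pow]; exact hMκ
    have h2 : 1 ≤ κ * Real.sqrt M := by
      rw [div_le_iff₀ hκ] at h1; linarith
    nlinarith
  have hL0 : 0 ≤ Le κ M := by linarith
  have hLM : Le κ M ≤ M ^ 2 := by
    unfold Le
    have h1 : Real.log M ≤ M := (Real.log_le_sub_one_of_pos hM0).trans (by linarith)
    have h2 : Real.sqrt M ≤ M := by
      rw [Real.sqrt_le_left hM0.le]; nlinarith
    calc κ * Real.sqrt M * Real.log M ≤ 1 * M * M := by gcongr
      _ = M ^ 2 := by ring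
  have hS := second κ M (by linarith) hL0 hLM
  have hTP : ((TP κ M).card : ℝ) ≤ (C + 1) * (κ ^ 2 * Qm κ M) := by
    have : (TP κ M).card = ((TP κ M).filter (fun s => s.1.1 + s.1.2 = s.2.1 + s.2.2)).card +
        ((TP κ M).filter (fun s => ¬ (s.1.1 + s.1.2 = s.2.1 + s.2.2))).card :=
      (Finset.card_filter_add_card_filter_not _).symm
    rw [this]
    push_cast
    linarith
  set Q := Qm κ M with hQ
  have hQ0 : 0 < Q := by rw [hQ]; unfold Qm; positivity
  have hTQ : ((TP κ M).card : ℝ) ≤ (C + 1) * Q := by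
    refine hTP.trans ?_
    have : κ ^ 2 ≤ 1 := by nlinarith
    have : κ ^ 2 * Q ≤ 1 * Q := by gcongr
    nlinarith
  set X := ((CP κ M).card : ℝ) with hX
  set T := ((TP κ M).card : ℝ) with hT
  have hT0' : 0 ≤ T := by rw [hT]; positivity
  set l := (⌊Le κ M⌋₊ : ℝ) with hl
  have hl1 : 1 ≤ l := by
    rw [hl]
    exact_mod_cast (Nat.one_le_floor_iff (Le κ M)).mpr hL1
  have hl2 : Le κ M / 2 ≤ l := by
    have := Nat.lt_floor_add_one (Le κ M)
    rw [← hl] at this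
    linarith
  push_cast at hS
  rw [← hX, ← hl] at hS
  have hXpos : 0 < X := lt_of_lt_of_le (by positivity) a3
  have hS2 : l * X ^ 2 ≤ ((SS κ M).card : ℝ) * (X + 2 * T) := by
    have : l * (l * X ^ 2) ≤ l * (((SS κ M).card : ℝ) * (X + 2 * T)) := by nlinarith
    exact le_of_mul_le_mul_left this (by linarith)
  have hS0 : (0:ℝ) ≤ ((SS κ M).card : ℝ) := Nat.cast_nonneg _
  -- monotonicity
  have hkey : l * (c * Q) ^ 2 ≤ ((SS κ M).card : ℝ) * (c * Q + 2 * T) := by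
    have hfr : (c * Q) ^ 2 / (c * Q + 2 * T) ≤ X ^ 2 / (X + 2 * T) := by
      rw [div_le_div_iff₀ (by positivity) (by positivity)]
      have hq : 0 < c * Q := by positivity
      nlinarith [mul_nonneg hT0' (sub_nonneg.mpr a3), mul_pos hq hXpos,
        mul_nonneg (mul_pos hq hXpos).le (sub_nonneg.mpr a3),
        mul_nonneg (mul_nonneg hT0' (sub_nonneg.mpr a3)) (add_pos hq hXpos).le]
    have h1 : l * (X ^ 2 / (X + 2 * T)) ≤ ((SS κ M).card : ℝ) := by
      rw [← mul_div_assoc, div_le_iff₀ (by positivity)]; exact hS2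
    have h2 : l * ((c * Q) ^ 2 / (c * Q + 2 * T)) ≤ ((SS κ M).card : ℝ) :=
      le_trans (by gcongr) h1
    rw [← mul_div_assoc, div_le_iff₀ (by positivity)] at h2
    exact h2
  have hkey2 : l * (c * Q) ^ 2 ≤ ((SS κ M).card : ℝ) * ((c + 2 * (C + 1)) * Q) := by
    refine hkey.trans ?_
    have : c * Q + 2 * T ≤ (c + 2 * (C + 1)) * Q := by nlinarith
    gcongr
  have hkey3 : l * c ^ 2 * Q ≤ ((SS κ M).card : ℝ) * (c + 2 * (C + 1)) := by
    have : (l * c ^ 2 * Q) * Q ≤ (((SS κ M).card : ℝ) * (c + 2 * (C + 1))) * Q := by nlinarith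
    exact le_of_mul_le_mul_right this hQ0
  have hLQ : Le κ M * Q = κ ^ 2 * M ^ 2 := by
    rw [hQ]; unfold Le Qm
    have hlog0 : Real.log M ≠ 0 := by linarith
    field_simp
    nlinarith [hss]
  have hfin : c ^ 2 * (κ ^ 2 * M ^ 2) ≤ ((SS κ M).card : ℝ) * (2 * (c + 2 * (C + 1))) := by
    rw [← hLQ]
    have : Le κ M / 2 * (c ^ 2 * Q) ≤ l * (c ^ 2 * Q) := by gcongr
    nlinarith
  have hfin2 : c ^ 2 / (2 * (c + 2 * (C + 1))) * (κ ^ 2 * M ^ 2) ≤ ((SS κ M).card : ℝ) := by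
    rw [div_mul_eq_mul_div, div_le_iff₀ (by positivity)]
    exact hfin
  exact hfin2

end Pool.Agent.Helper8.AB.UN
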